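import Mathlib

set_option autoImplicit false

open CategoryTheory Limits MonoidalCategory CartesianMonoidalCategory

universe u v w

namespace Pool.Agent.W_MP_57cfa6_lc

attribute [local instance] uliftCategory

/-- The small category used as a model of the simplex category. -/
abbrev Model : Type u := ULiftHom.{u} (ULift.{u} SimplexCategory)

/-- Simplicial sets as presheaves on a small category. -/
noncomputable def modelEquiv : SSet.{u} ≌ (Model.{u}ᵒᵖ ⥤ Type u) :=
  (ULift.equivalence.trans ULiftHom.equiv).op.congrLeft

/-- A slice of simplicial sets as a category of presheaves on a small category. -/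
noncomputable def sliceEquiv (B : SSet.{u}) :
    Over B ≌ ((CostructuredArrow yoneda (modelEquiv.functor.obj B))ᵒᵖ ⥤ Type u) :=
  (Over.postEquiv B modelEquiv).trans (overEquivPresheafCostructuredArrow _)

section General

variable {K : Type u} [SmallCategory K]

/-- In presheaves, the product functor is the tensor functor. -/
noncomputable def prodIsoTensor (X : K ⥤ Type u) : prod.functor.obj X ≅ tensorLeft X :=
  NatIso.ofComponents
    (fun Y => (prodIsProd X Y).conePointUniqueUpToIso (tensorProductIsBinaryProduct X Y))
    (by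
      intro Y Z f
      have l1 : ((prodIsProd X Z).conePointUniqueUpToIso (tensorProductIsBinaryProduct X Z)).hom
          ≫ fst X Z = prod.fst := (prodIsProd X Z).conePointUniqueUpToIso_hom_comp
          (tensorProductIsBinaryProduct X Z) ⟨WalkingPair.left⟩
      have l2 : ((prodIsProd X Y).conePointUniqueUpToIso (tensorProductIsBinaryProduct X Y)).hom
          ≫ fst X Y = prod.fst := (prodIsProd X Y).conePointUniqueUpToIso_hom_comp
          (tensorProductIsBinaryProduct X Y) ⟨WalkingPair.left⟩
      have r1 : ((prodIsProd X Z).conePointUniqueUpToIso (tensorProductIsBinaryProduct X Z)).hom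
          ≫ snd X Z = prod.snd := (prodIsProd X Z).conePointUniqueUpToIso_hom_comp
          (tensorProductIsBinaryProduct X Z) ⟨WalkingPair.right⟩
      have r2 : ((prodIsProd X Y).conePointUniqueUpToIso (tensorProductIsBinaryProduct X Y)).hom
          ≫ snd X Y = prod.snd := (prodIsProd X Y).conePointUniqueUpToIso_hom_comp
          (tensorProductIsBinaryProduct X Y) ⟨WalkingPair.right⟩
      apply CartesianMonoidalCategory.hom_ext
      · refine (Category.assoc _ _ _).trans ?_
        refine Eq.trans ?_ (Category.assoc _ _ _).symm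
        refine (congrArg (fun t => _ ≫ t) l1).trans ?_
        refine Eq.trans ?_ (congrArg (fun t => _ ≫ t) (whiskerLeft_fst X f)).symm
        refine Eq.trans ?_ l2.symm
        exact (prod.map_fst _ _).trans (Category.comp_id _)
      · refine (Category.assoc _ _ _).trans ?_
        refine Eq.trans ?_ (Category.assoc _ _ _).symm
        refine (congrArg (fun t => _ ≫ t) r1).trans ?_
        refine Eq.trans ?_ (congrArg (fun t => _ ≫ t) (whiskerLeft_snd X f)).symm
        refine Eq.trans ?_ (Category.assoc _ _ _)
        refine Eq.trans ?_ (congrArg (fun t => t ≫ f) r2).symm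
        exact prod.map_snd _ _)

instance (X : K ⥤ Type u) : (prod.functor.obj X).IsLeftAdjoint := by
  have : (tensorLeft X).IsLeftAdjoint := ⟨_, ⟨ihom.adjunction X⟩⟩
  exact Functor.isLeftAdjoint_of_iso (prodIsoTensor X).symm

/-- Transport of the product functor along an equivalence. -/
lemma isLeftAdjoint_prod_of_equiv {C : Type v} [Category.{w} C] [HasBinaryProducts C]
    (e : C ≌ (K ⥤ Type u)) (A : C) : (prod.functor.obj A).IsLeftAdjoint := by
  have i1 : prod.functor.obj A ⋙ e.functor ≅
      e.functor ⋙ prod.functor.obj (e.functor.obj A) :=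
    NatIso.ofComponents (fun Y => PreservesLimitPair.iso e.functor A Y) (by
      intro Y Z f
      have := prodComparison_natural e.functor (𝟙 A) f
      rw [CategoryTheory.Functor.map_id] at this
      exact this)
  have i2 : prod.functor.obj A ≅
      (e.functor ⋙ prod.functor.obj (e.functor.obj A)) ⋙ e.inverse :=
    (Functor.rightUnitor _).symm ≪≫ Functor.isoWhiskerLeft _ e.unitIso ≪≫
      (Functor.associator _ _ _).symm ≪≫ Functor.isoWhiskerRight i1 _
  exact Functor.isLeftAdjoint_of_iso i2.symm

/-- Functors preserving colimits are left adjoints. -/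
lemma isLeftAdjoint_of_equiv {C : Type v} [Category.{u} C]
    (e : C ≌ (K ⥤ Type u)) {D : Type v} [Category.{u} D] [HasColimitsOfSize.{u, u} D] (F : C ⥤ D)
    [PreservesColimitsOfSize.{u, u} F] : F.IsLeftAdjoint := by
  have h : (e.inverse ⋙ F).IsLeftAdjoint :=
    Presheaf.isLeftAdjoint_of_preservesColimits.{u} (e.inverse ⋙ F)
  have i : e.functor ⋙ (e.inverse ⋙ F) ≅ F :=
    (Functor.associator _ _ _).symm ≪≫ Functor.isoWhiskerRight e.unitIso.symm _ ≪≫
      Functor.leftUnitor _
  exact Functor.isLeftAdjoint_of_iso i

end General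

instance isLeftAdjoint_prod (B : SSet.{u}) (A : Over B) : (prod.functor.obj A).IsLeftAdjoint :=
  isLeftAdjoint_prod_of_equiv (sliceEquiv B) A

/-- The two descriptions of a pullback. -/
noncomputable def pullbackIso {X Y : SSet.{u}} (p : X ⟶ Y) (A : Over Y) :
    (Over.mk p ⨯ A).left ≅ pullback A.hom p :=
  (Over.prodLeftIsoPullback (Over.mk p) A) ≪≫ (pullbackSymmetry _ _)

lemma pullbackIso_fst {X Y : SSet.{u}} (p : X ⟶ Y) (A : Over Y) :
    (pullbackIso p A).hom ≫ pullback.fst A.hom p = (prod.snd : Over.mk p ⨯ A ⟶ A).left := by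
  unfold pullbackIso
  rw [Iso.trans_hom, Category.assoc]
  exact (congrArg (fun t => _ ≫ t) (pullbackSymmetry_hom_comp_fst p A.hom)).trans
    (Over.prodLeftIsoPullback_hom_snd (Over.mk p) A)

lemma pullbackIso_snd {X Y : SSet.{u}} (p : X ⟶ Y) (A : Over Y) :
    (pullbackIso p A).hom ≫ pullback.snd A.hom p
      = (prod.fst : Over.mk p ⨯ A ⟶ Over.mk p).left := by
  unfold pullbackIso
  rw [Iso.trans_hom, Category.assoc]
  exact (congrArg (fun t => _ ≫ t) (pullbackSymmetry_hom_comp_snd p A.hom)).trans
    (Over.prodLeftIsoPullback_hom_fst (Over.mk p) A)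

lemma pullbackIso_natural {X Y : SSet.{u}} (p : X ⟶ Y) {A A' : Over Y} (f : A ⟶ A') :
    (prod.map (𝟙 (Over.mk p)) f).left ≫ (pullbackIso p A').hom
      = (pullbackIso p A).hom ≫ ((Over.pullback p).map f).left := by
  apply pullback.hom_ext
  · rw [Category.assoc, pullbackIso_fst, ← Over.comp_left, prod.map_snd, Over.comp_left,
      Category.assoc]
    have : ((Over.pullback p).map f).left ≫ pullback.fst A'.hom p
        = pullback.fst A.hom p ≫ f.left := pullback.lift_fst _ _ _
    rw [this, ← Category.assoc, pullbackIso_fst]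
  · rw [Category.assoc, pullbackIso_snd, ← Over.comp_left, prod.map_fst, Category.comp_id,
      Category.assoc]
    have : ((Over.pullback p).map f).left ≫ pullback.snd A'.hom p
        = pullback.snd A.hom p := pullback.lift_snd _ _ _
    rw [this, pullbackIso_snd]

/-- Pulling back and forgetting is the product with the map, and forgetting. -/
noncomputable def pullbackForgetIso {X Y : SSet.{u}} (p : X ⟶ Y) :
    prod.functor.obj (Over.mk p) ⋙ Over.forget Y ≅ Over.pullback p ⋙ Over.forget X :=
  NatIso.ofComponents (fun A => pullbackIso p A) (fun f => pullbackIso_natural p f)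

instance isLeftAdjoint_pullback {X Y : SSet.{u}} (p : X ⟶ Y) : (Over.pullback p).IsLeftAdjoint := by
  have h1 : PreservesColimitsOfSize.{u, u} (Over.pullback p ⋙ Over.forget X) :=
    preservesColimits_of_natIso (pullbackForgetIso p)
  have h2 : PreservesColimitsOfSize.{u, u} (Over.pullback p) :=
    preservesColimits_of_reflects_of_preserves (Over.pullback p) (Over.forget X)
  exact isLeftAdjoint_of_equiv (sliceEquiv Y) (Over.pullback p)

end Pool.Agent.W_MP_57cfa6_lc
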