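import Pool.Agent.W_MP_57cfa6_lc.FrameSem

/-!
# The underivable sentence
-/

set_option autoImplicit false

open TopologicalSpace

namespace Pool.Agent.W_MP_57cfa6_lc

/-! ### Symmetries of a frame-valued model -/

section Symmetry

variable {σ : Signature} {H : Type} [Order.Frame H] (M : FModel σ H)

/-- A symmetry of a model. -/
structure Symmetry where
  T : H ≃o H
  act : ∀ s : σ.Srt, M.carrier s ≃ M.carrier s
  fn : ∀ (f : σ.Fn) (a : ∀ i : Fin (σ.dom f).length, M.carrier ((σ.dom f).get i)),
    M.fn f (fun i => act _ (a i)) = act _ (M.fn f a)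
  eqv : ∀ s a b, M.eqv s (act s a) (act s b) = T (M.eqv s a b)

variable {M} (S : Symmetry M)

lemma Symmetry.tm {Γ : List σ.Srt} (ρ : M.Env Γ) {s : σ.Srt} (a : Term Γ s) :
    M.tm (fun s x => S.act s (ρ s x)) a = S.act s (M.tm ρ a) := by
  induction a with
  | var x => rfl
  | app f a ih =>
    simp only [FModel.tm, ih]
    exact S.fn f _

lemma Symmetry.cons {Γ : List σ.Srt} (ρ : M.Env Γ) {t : σ.Srt} (a : M.carrier t) :
    M.cons (S.act t a) (fun s x => S.act s (ρ s x)) = fun s x => S.act s (M.cons a ρ s x) := by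
  funext s x
  cases x <;> rfl

lemma Symmetry.val {Γ : List σ.Srt} (φ : Formula Γ) (ρ : M.Env Γ) :
    M.val φ (fun s x => S.act s (ρ s x)) = S.T (M.val φ ρ) := by
  induction φ with
  | top => simp only [FModel.val]; exact (map_top S.T).symm
  | bot => simp only [FModel.val]; exact (map_bot S.T).symm
  | eq a b => simp only [FModel.val, S.tm, S.eqv]
  | and φ ψ ih1 ih2 => simp only [FModel.val, ih1, ih2]; exact (map_inf S.T _ _).symm
  | or φ ψ ih1 ih2 => simp only [FModel.val, ih1, ih2]; exact (map_sup S.T _ _).symm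
  | imp φ ψ ih1 ih2 => simp only [FModel.val, ih1, ih2]; exact (map_himp S.T _ _).symm
  | all s φ ih =>
    simp only [FModel.val]
    rw [OrderIso.map_iInf, ← (S.act s).iInf_comp]
    simp only [S.cons, ih]
  | ex s φ ih =>
    simp only [FModel.val]
    rw [OrderIso.map_iSup, ← (S.act s).iSup_comp]
    simp only [S.cons, ih]

lemma Symmetry.val_closed (φ : Formula (σ := σ) []) (ρ : M.Env []) :
    S.T (M.val φ ρ) = M.val φ ρ := by
  rw [← S.val]
  congr 1
  funext s x
  cases x

end Symmetry

/-! ### The signature and the sentence -/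

/-- The signature with one sort and no function symbols. -/
def oneSort : Signature where
  Srt := Unit
  Fn := Empty
  dom := Empty.elim
  cod := Empty.elim

/-- The equation between the two variables of a context. -/
def xEqY : Formula (σ := oneSort) [(), ()] := .eq (.var (.succ .zero)) (.var .zero)

/-- The sentence `∀ x y, ¬ x = y ∨ ¬ ¬ x = y`. -/
def wem : Formula (σ := oneSort) [] := .all () (.all () (.or xEqY.neg xEqY.neg.neg))

/-- The model: two-valued functions on the line, equal to the extent given by the interior of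
the set where they agree. -/
def lineModel : FModel oneSort (Opens ℝ) where
  carrier _ := ℝ → Bool
  fn f := f.elim
  eqv _ a b := ⟨interior {x | a x = b x}, isOpen_interior⟩
  refl _ a := by
    ext x
    simp
  symm _ a b := by
    intro x hx
    have h : {x | a x = b x} = {x | b x = a x} := by
      ext x
      exact eq_comm
    have hx' : x ∈ interior {x | a x = b x} := hx
    rw [h] at hx'
    exact hx'
  trans _ a b c := by
    rintro x ⟨h1, h2⟩
    have h1' : x ∈ interior {x | a x = b x} := h1
    have h2' : x ∈ interior {x | b x = c x} := h2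
    have h3 : x ∈ interior ({x | a x = b x} ∩ {x | b x = c x}) := by
      rw [interior_inter]
      exact ⟨h1', h2'⟩
    refine interior_mono ?_ h3
    rintro y ⟨hy1, hy2⟩
    exact Eq.trans hy1 hy2
  congr f := f.elim

/-- Translations are symmetries. -/
def translation (g : ℝ) : Symmetry lineModel where
  T := (Homeomorph.addRight g).opensCongr
  act _ := (Homeomorph.addRight g).toEquiv.arrowCongr (Equiv.refl Bool)
  fn f := f.elim
  eqv _ a b := by
    apply SetLike.coe_injective
    exact ((Homeomorph.addRight g).symm.preimage_interior {x | a x = b x}).symm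

lemma mem_translation (g : ℝ) (U : Opens ℝ) (x : ℝ) : x ∈ (translation g).T U ↔ x - g ∈ U := by
  rw [sub_eq_add_neg]
  exact Iff.rfl

/-- A sentence has value `⊤` or `⊥` in the line model. -/
lemma lineModel_closed (φ : Formula (σ := oneSort) []) (ρ : lineModel.Env []) :
    lineModel.val φ ρ = ⊤ ∨ lineModel.val φ ρ = ⊥ := by
  by_cases h : ∃ x, x ∈ lineModel.val φ ρ
  · left
    obtain ⟨x, hx⟩ := h
    ext y
    constructor
    · intro _
      trivial
    · intro _
      have h1 := (translation (y - x)).val_closed φ ρ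
      have h2 : y ∈ (translation (y - x)).T (lineModel.val φ ρ) := by
        rw [mem_translation]
        have : y - (y - x) = x := by ring
        rw [this]
        exact hx
      rw [h1] at h2
      exact h2
  · right
    ext y
    constructor
    · intro hy
      exact (h ⟨y, hy⟩).elim
    · intro hy
      exact hy.elim

lemma lineModel_hyps (ρ : lineModel.Env []) : lineModel.hyps (closedEM oneSort) ρ = ⊤ := by
  unfold FModel.hyps
  rw [iInf₂_eq_top]
  rintro χ ⟨ψ, rfl⟩
  simp only [FModel.val, Formula.neg]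
  rcases lineModel_closed ψ ρ with h | h <;> rw [h] <;> simp

/-- The indicator of the positive half-line. -/
noncomputable def half : ℝ → Bool := fun x => decide (0 < x)

lemma half_agree : interior {x : ℝ | half x = (fun _ => true) x} = Set.Ioi 0 := by
  have : {x : ℝ | half x = (fun _ => true) x} = Set.Ioi 0 := by
    ext x
    simp [half]
  rw [this]
  exact interior_Ioi

lemma lineModel_wem (ρ : lineModel.Env []) : lineModel.val wem ρ ≠ ⊤ := by
  intro h
  have h1 : lineModel.val wem ρ ≤ lineModel.val (.or xEqY.neg xEqY.neg.neg)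
      (lineModel.cons (t := ()) (fun _ => true) (lineModel.cons (t := ()) half ρ)) := by
    simp only [wem, FModel.val]
    exact (iInf_le _ half).trans (iInf_le _ (fun _ => true))
  rw [h, top_le_iff] at h1
  set U : Opens ℝ := lineModel.val xEqY
      (lineModel.cons (t := ()) (fun _ => true) (lineModel.cons (t := ()) half ρ)) with hU
  have hUs : ∀ x : ℝ, x ∈ U ↔ 0 < x := by
    intro x
    have : x ∈ U ↔ x ∈ interior {x : ℝ | half x = (fun _ => true) x} := Iff.rfl
    rw [this, half_agree]
    rfl
  have h2 : (U ⇨ ⊥) ⊔ ((U ⇨ ⊥) ⇨ ⊥) = (⊤ : Opens ℝ) := h1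
  have h0 : (0 : ℝ) ∈ (U ⇨ ⊥) ⊔ ((U ⇨ ⊥) ⇨ ⊥) := by
    rw [h2]
    trivial
  -- an open neighbourhood of `0` meets both half-lines
  have hmeet : ∀ W : Opens ℝ, (0 : ℝ) ∈ W → (∃ x ∈ W, 0 < x) ∧ ∃ x ∈ W, x < 0 := by
    intro W hW
    obtain ⟨ε, hε, hball⟩ := Metric.isOpen_iff.1 W.isOpen 0 hW
    refine ⟨⟨ε / 2, hball ?_, by linarith⟩, ⟨-(ε / 2), hball ?_, by linarith⟩⟩
    · rw [Metric.mem_ball, Real.dist_eq, sub_zero, abs_of_pos (by linarith)]
      linarith
    · rw [Metric.mem_ball, Real.dist_eq, sub_zero, abs_neg, abs_of_pos (by linarith)]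
      linarith
  rcases h0 with h0 | h0
  · obtain ⟨⟨x, hx, hx0⟩, -⟩ := hmeet _ h0
    have h3 : (U ⇨ ⊥) ⊓ U ≤ ⊥ := himp_inf_le
    exact h3 ⟨hx, (hUs x).2 hx0⟩
  · obtain ⟨-, ⟨x, hx, hx0⟩⟩ := hmeet _ h0
    have h3 : ((U ⇨ ⊥) ⇨ ⊥) ⊓ (U ⇨ ⊥) ≤ ⊥ := himp_inf_le
    have h4 : (⟨Set.Iio 0, isOpen_Iio⟩ : Opens ℝ) ≤ U ⇨ ⊥ := by
      rw [le_himp_iff]
      rintro y ⟨hy1, hy2⟩
      have e1 : y < 0 := hy1
      have e2 : 0 < y := (hUs y).1 hy2
      exact absurd e1 (not_lt.2 e2.le)
    exact h3 ⟨hx, h4 hx0⟩

/-- The sentence is not derivable, even from excluded middle for all sentences. -/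
theorem not_proves_wem : ¬ Proves (closedEM oneSort) wem := by
  intro h
  have h1 := lineModel.sound h (fun _ x => nomatch x)
  rw [lineModel_hyps, top_le_iff] at h1
  exact lineModel_wem _ h1

end Pool.Agent.W_MP_57cfa6_lc
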