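import Pool.Agent.W_MP_57cfa6_lc.Syn

/-!
# Models with values in a frame, and soundness
-/

set_option autoImplicit false

namespace Pool.Agent.W_MP_57cfa6_lc

variable {σ : Signature}

/-- A structure whose equality takes values in a frame. -/
structure FModel (σ : Signature) (H : Type) [Order.Frame H] where
  carrier : σ.Srt → Type
  fn : ∀ f : σ.Fn, (∀ i : Fin (σ.dom f).length, carrier ((σ.dom f).get i)) → carrier (σ.cod f)
  eqv : ∀ s : σ.Srt, carrier s → carrier s → H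
  refl : ∀ s a, eqv s a a = ⊤
  symm : ∀ s a b, eqv s a b ≤ eqv s b a
  trans : ∀ s a b c, eqv s a b ⊓ eqv s b c ≤ eqv s a c
  congr : ∀ (f : σ.Fn) (a b : ∀ i : Fin (σ.dom f).length, carrier ((σ.dom f).get i)),
    (⨅ i, eqv _ (a i) (b i)) ≤ eqv _ (fn f a) (fn f b)

variable {H : Type} [Order.Frame H] (M : FModel σ H)

/-- Assignments. -/
abbrev FModel.Env (M : FModel σ H) (Γ : List σ.Srt) : Type := ∀ s, Var Γ s → M.carrier s

/-- Extension of an assignment. -/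
def FModel.cons (M : FModel σ H) {Γ : List σ.Srt} {t : σ.Srt} (a : M.carrier t) (ρ : M.Env Γ) :
    M.Env (t :: Γ)
  | _, .zero => a
  | _, .succ x => ρ _ x

/-- Values of terms. -/
def FModel.tm (M : FModel σ H) {Γ : List σ.Srt} (ρ : M.Env Γ) :
    ∀ {s : σ.Srt}, Term Γ s → M.carrier s
  | _, .var x => ρ _ x
  | _, .app f a => M.fn f fun i => M.tm ρ (a i)

/-- Values of formulas. -/
def FModel.val (M : FModel σ H) : ∀ {Γ : List σ.Srt}, Formula Γ → M.Env Γ → H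
  | _, .top, _ => ⊤
  | _, .bot, _ => ⊥
  | _, .eq a b, ρ => M.eqv _ (M.tm ρ a) (M.tm ρ b)
  | _, .and φ ψ, ρ => M.val φ ρ ⊓ M.val ψ ρ
  | _, .or φ ψ, ρ => M.val φ ρ ⊔ M.val ψ ρ
  | _, .imp φ ψ, ρ => M.val φ ρ ⇨ M.val ψ ρ
  | _, .all s φ, ρ => ⨅ a : M.carrier s, M.val φ (M.cons a ρ)
  | _, .ex s φ, ρ => ⨆ a : M.carrier s, M.val φ (M.cons a ρ)

lemma FModel.tm_rename {Γ Δ : List σ.Srt} (r : ∀ s, Var Γ s → Var Δ s) (ρ : M.Env Δ)
    {s : σ.Srt} (a : Term Γ s) : M.tm ρ (a.rename r) = M.tm (fun s x => ρ s (r s x)) a := by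
  induction a with
  | var x => rfl
  | app f a ih =>
    simp only [Term.rename, FModel.tm]
    congr 1
    funext i
    exact ih i

lemma FModel.cons_liftRen {Γ Δ : List σ.Srt} (r : ∀ s, Var Γ s → Var Δ s) (ρ : M.Env Δ)
    {t : σ.Srt} (a : M.carrier t) :
    (fun s x => M.cons a ρ s (liftRen r t s x)) = M.cons a (fun s x => ρ s (r s x)) := by
  funext s x
  cases x <;> rfl

lemma FModel.val_rename {Γ Δ : List σ.Srt} (r : ∀ s, Var Γ s → Var Δ s) (φ : Formula Γ)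
    (ρ : M.Env Δ) : M.val (φ.rename r) ρ = M.val φ (fun s x => ρ s (r s x)) := by
  induction φ generalizing Δ with
  | top => rfl
  | bot => rfl
  | eq a b => simp only [Formula.rename, FModel.val, M.tm_rename]
  | and φ ψ ih1 ih2 => simp only [Formula.rename, FModel.val, ih1, ih2]
  | or φ ψ ih1 ih2 => simp only [Formula.rename, FModel.val, ih1, ih2]
  | imp φ ψ ih1 ih2 => simp only [Formula.rename, FModel.val, ih1, ih2]
  | all s φ ih => simp only [Formula.rename, FModel.val, ih, M.cons_liftRen]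
  | ex s φ ih => simp only [Formula.rename, FModel.val, ih, M.cons_liftRen]

lemma FModel.tm_subst {Γ Δ : List σ.Srt} (τ : ∀ s, Var Γ s → Term Δ s) (ρ : M.Env Δ)
    {s : σ.Srt} (a : Term Γ s) : M.tm ρ (a.subst τ) = M.tm (fun s x => M.tm ρ (τ s x)) a := by
  induction a with
  | var x => rfl
  | app f a ih =>
    simp only [Term.subst, FModel.tm]
    congr 1
    funext i
    exact ih i

lemma FModel.cons_liftSub {Γ Δ : List σ.Srt} (τ : ∀ s, Var Γ s → Term Δ s) (ρ : M.Env Δ)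
    {t : σ.Srt} (a : M.carrier t) :
    (fun s x => M.tm (M.cons a ρ) (liftSub τ t s x)) = M.cons a (fun s x => M.tm ρ (τ s x)) := by
  funext s x
  cases x with
  | zero => rfl
  | succ x => exact M.tm_rename _ _ _

lemma FModel.val_subst {Γ Δ : List σ.Srt} (τ : ∀ s, Var Γ s → Term Δ s) (φ : Formula Γ)
    (ρ : M.Env Δ) : M.val (φ.subst τ) ρ = M.val φ (fun s x => M.tm ρ (τ s x)) := by
  induction φ generalizing Δ with
  | top => rfl
  | bot => rfl
  | eq a b => simp only [Formula.subst, FModel.val, M.tm_subst]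
  | and φ ψ ih1 ih2 => simp only [Formula.subst, FModel.val, ih1, ih2]
  | or φ ψ ih1 ih2 => simp only [Formula.subst, FModel.val, ih1, ih2]
  | imp φ ψ ih1 ih2 => simp only [Formula.subst, FModel.val, ih1, ih2]
  | all s φ ih => simp only [Formula.subst, FModel.val, ih, M.cons_liftSub]
  | ex s φ ih => simp only [Formula.subst, FModel.val, ih, M.cons_liftSub]

lemma FModel.val_inst {Γ : List σ.Srt} {s : σ.Srt} (φ : Formula (s :: Γ)) (t : Term Γ s)
    (ρ : M.Env Γ) : M.val (φ.inst t) ρ = M.val φ (M.cons (M.tm ρ t) ρ) := by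
  unfold Formula.inst
  rw [M.val_subst]
  congr 1
  funext s x
  cases x <;> rfl

lemma FModel.val_weaken {Γ : List σ.Srt} {s : σ.Srt} (φ : Formula Γ) (a : M.carrier s)
    (ρ : M.Env Γ) : M.val (φ.weaken s) (M.cons a ρ) = M.val φ ρ := by
  unfold Formula.weaken
  rw [M.val_rename]
  rfl

/-- The extent to which two assignments are equal. -/
def FModel.eqEnv (M : FModel σ H) {Γ : List σ.Srt} (ρ ρ' : M.Env Γ) : H :=
  ⨅ s, ⨅ x : Var Γ s, M.eqv s (ρ s x) (ρ' s x)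

lemma FModel.eqEnv_symm {Γ : List σ.Srt} (ρ ρ' : M.Env Γ) : M.eqEnv ρ ρ' ≤ M.eqEnv ρ' ρ :=
  iInf_mono fun _ => iInf_mono fun _ => M.symm _ _ _

lemma FModel.eqEnv_cons {Γ : List σ.Srt} {t : σ.Srt} (a : M.carrier t) (ρ ρ' : M.Env Γ) :
    M.eqEnv ρ ρ' ≤ M.eqEnv (M.cons a ρ) (M.cons a ρ') := by
  refine le_iInf fun s => le_iInf fun x => ?_
  cases x with
  | zero => simp only [FModel.cons, M.refl]; exact le_top
  | succ x => exact (iInf_le _ s).trans (iInf_le _ x)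

lemma FModel.eqEnv_tm {Γ : List σ.Srt} (ρ ρ' : M.Env Γ) {s : σ.Srt} (a : Term Γ s) :
    M.eqEnv ρ ρ' ≤ M.eqv s (M.tm ρ a) (M.tm ρ' a) := by
  induction a with
  | var x => exact (iInf_le _ _).trans (iInf_le _ x)
  | app f a ih => exact (le_iInf ih).trans (M.congr f _ _)

lemma FModel.eqEnv_val {Γ : List σ.Srt} (φ : Formula Γ) (ρ ρ' : M.Env Γ) :
    M.eqEnv ρ ρ' ⊓ M.val φ ρ ≤ M.val φ ρ' := by
  induction φ with
  | top => exact le_top
  | bot => exact inf_le_right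
  | eq a b =>
    simp only [FModel.val]
    have h1 : M.eqEnv ρ ρ' ≤ M.eqv _ (M.tm ρ' a) (M.tm ρ a) :=
      (M.eqEnv_symm ρ ρ').trans (M.eqEnv_tm ρ' ρ a)
    have h2 := M.eqEnv_tm ρ ρ' b
    calc M.eqEnv ρ ρ' ⊓ M.eqv _ (M.tm ρ a) (M.tm ρ b)
        ≤ (M.eqv _ (M.tm ρ' a) (M.tm ρ a) ⊓ M.eqv _ (M.tm ρ a) (M.tm ρ b))
            ⊓ M.eqv _ (M.tm ρ b) (M.tm ρ' b) :=
          le_inf (le_inf (inf_le_left.trans h1) inf_le_right) (inf_le_left.trans h2)
      _ ≤ M.eqv _ (M.tm ρ' a) (M.tm ρ b) ⊓ M.eqv _ (M.tm ρ b) (M.tm ρ' b) :=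
          inf_le_inf_right _ (M.trans _ _ _ _)
      _ ≤ _ := M.trans _ _ _ _
  | and φ ψ ih1 ih2 =>
    simp only [FModel.val]
    exact le_inf ((inf_le_inf_left _ inf_le_left).trans (ih1 ρ ρ'))
      ((inf_le_inf_left _ inf_le_right).trans (ih2 ρ ρ'))
  | or φ ψ ih1 ih2 =>
    simp only [FModel.val]
    rw [inf_sup_left]
    exact sup_le_sup (ih1 ρ ρ') (ih2 ρ ρ')
  | imp φ ψ ih1 ih2 =>
    simp only [FModel.val]
    rw [le_himp_iff]
    have h1 : M.eqEnv ρ ρ' ⊓ M.val φ ρ' ≤ M.val φ ρ :=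
      (inf_le_inf_right _ (M.eqEnv_symm ρ ρ')).trans (ih1 ρ' ρ)
    calc M.eqEnv ρ ρ' ⊓ (M.val φ ρ ⇨ M.val ψ ρ) ⊓ M.val φ ρ'
        ≤ M.eqEnv ρ ρ' ⊓ ((M.val φ ρ ⇨ M.val ψ ρ) ⊓ M.val φ ρ) := by
          refine le_inf (inf_le_left.trans inf_le_left) (le_inf (inf_le_left.trans inf_le_right) ?_)
          exact (inf_le_inf_right _ inf_le_left).trans h1
      _ ≤ M.eqEnv ρ ρ' ⊓ M.val ψ ρ := inf_le_inf_left _ himp_inf_le
      _ ≤ _ := ih2 ρ ρ'
  | all s φ ih =>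
    simp only [FModel.val]
    refine le_iInf fun a => ?_
    calc M.eqEnv ρ ρ' ⊓ ⨅ a, M.val φ (M.cons a ρ)
        ≤ M.eqEnv (M.cons a ρ) (M.cons a ρ') ⊓ M.val φ (M.cons a ρ) :=
          inf_le_inf (M.eqEnv_cons a ρ ρ') (iInf_le _ a)
      _ ≤ _ := ih _ _
  | ex s φ ih =>
    simp only [FModel.val]
    rw [inf_iSup_eq]
    refine iSup_le fun a => ?_
    calc M.eqEnv ρ ρ' ⊓ M.val φ (M.cons a ρ)
        ≤ M.eqEnv (M.cons a ρ) (M.cons a ρ') ⊓ M.val φ (M.cons a ρ) :=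
          inf_le_inf_right _ (M.eqEnv_cons a ρ ρ')
      _ ≤ M.val φ (M.cons a ρ') := ih _ _
      _ ≤ _ := le_iSup (fun a => M.val φ (M.cons a ρ')) a

/-- The value of a set of hypotheses. -/
def FModel.hyps (M : FModel σ H) {Γ : List σ.Srt} (Δ : Set (Formula Γ)) (ρ : M.Env Γ) : H :=
  ⨅ ψ ∈ Δ, M.val ψ ρ

lemma FModel.hyps_insert {Γ : List σ.Srt} (Δ : Set (Formula Γ)) (φ : Formula Γ) (ρ : M.Env Γ) :
    M.hyps (insert φ Δ) ρ = M.val φ ρ ⊓ M.hyps Δ ρ := by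
  unfold FModel.hyps
  rw [iInf_insert]

lemma FModel.hyps_weaken {Γ : List σ.Srt} {s : σ.Srt} (Δ : Set (Formula Γ)) (a : M.carrier s)
    (ρ : M.Env Γ) : M.hyps (Formula.weaken s '' Δ) (M.cons a ρ) = M.hyps Δ ρ := by
  unfold FModel.hyps
  rw [iInf_image]
  simp only [M.val_weaken]

/-- Soundness. -/
theorem FModel.sound {Γ : List σ.Srt} {Δ : Set (Formula Γ)} {φ : Formula Γ} (h : Proves Δ φ)
    (ρ : M.Env Γ) : M.hyps Δ ρ ≤ M.val φ ρ := by
  induction h with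
  | hyp h => exact iInf₂_le _ h
  | topI => exact le_top
  | botE _ ih => exact (ih ρ).trans bot_le
  | andI _ _ ih1 ih2 => exact le_inf (ih1 ρ) (ih2 ρ)
  | andE₁ _ ih => exact (ih ρ).trans inf_le_left
  | andE₂ _ ih => exact (ih ρ).trans inf_le_right
  | orI₁ _ ih => exact (ih ρ).trans le_sup_left
  | orI₂ _ ih => exact (ih ρ).trans le_sup_right
  | @orE Γ Δ φ ψ χ _ _ _ ih0 ih1 ih2 =>
    have h0 := ih0 ρ
    have h1 := ih1 ρ
    have h2 := ih2 ρ
    rw [M.hyps_insert] at h1 h2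
    simp only [FModel.val] at h0
    calc M.hyps Δ ρ ≤ (M.val φ ρ ⊔ M.val ψ ρ) ⊓ M.hyps Δ ρ := le_inf h0 le_rfl
      _ = (M.val φ ρ ⊓ M.hyps Δ ρ) ⊔ (M.val ψ ρ ⊓ M.hyps Δ ρ) := inf_sup_right _ _ _
      _ ≤ M.val χ ρ := sup_le h1 h2
  | @impI Γ Δ φ ψ _ ih =>
    have h1 := ih ρ
    rw [M.hyps_insert] at h1
    simp only [FModel.val]
    rw [le_himp_iff, inf_comm]
    exact h1
  | impE _ _ ih1 ih2 =>
    have h1 := ih1 ρ
    have h2 := ih2 ρ
    simp only [FModel.val] at h1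
    rw [le_himp_iff] at h1
    exact (le_inf le_rfl h2).trans h1
  | allI _ ih =>
    simp only [FModel.val]
    refine le_iInf fun a => ?_
    have := ih (M.cons a ρ)
    rw [M.hyps_weaken] at this
    exact this
  | allE t _ ih =>
    rw [M.val_inst]
    exact (ih ρ).trans (iInf_le _ _)
  | exI t _ ih =>
    have := ih ρ
    rw [M.val_inst] at this
    exact this.trans (le_iSup (fun a => M.val _ (M.cons a ρ)) _)
  | @exE Γ Δ s φ χ _ _ ih1 ih2 =>
    have h1 := ih1 ρ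
    simp only [FModel.val] at h1
    calc M.hyps Δ ρ ≤ M.hyps Δ ρ ⊓ ⨆ a, M.val φ (M.cons a ρ) := le_inf le_rfl h1
      _ = ⨆ a, M.hyps Δ ρ ⊓ M.val φ (M.cons a ρ) := inf_iSup_eq _ _
      _ ≤ M.val χ ρ := iSup_le fun a => by
          have h2 := ih2 (M.cons a ρ)
          rw [M.hyps_insert, M.hyps_weaken, M.val_weaken, inf_comm] at h2
          exact h2
  | eqI t =>
    simp only [FModel.val, M.refl]
    exact le_top
  | @eqE Γ Δ s t t' φ _ _ ih1 ih2 =>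
    have h1 := ih1 ρ
    have h2 := ih2 ρ
    rw [M.val_inst] at h2 ⊢
    simp only [FModel.val] at h1
    have h3 : M.hyps Δ ρ ≤ M.eqEnv (M.cons (M.tm ρ t) ρ) (M.cons (M.tm ρ t') ρ) := by
      refine le_iInf fun s => le_iInf fun x => ?_
      cases x with
      | zero => exact h1
      | succ x => simp only [FModel.cons, M.refl]; exact le_top
    exact (le_inf h3 h2).trans (M.eqEnv_val φ _ _)

end Pool.Agent.W_MP_57cfa6_lc
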