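import Pool.Agent.W_MP_57cfa6_lc.Linked

/-!
# Gluing along a locally constant predicate
-/

set_option autoImplicit false

open CategoryTheory Limits MonoidalCategory Simplicial Opposite

universe u

namespace Pool.Agent.W_MP_57cfa6_lc

lemma map_comp_yoneda {B : SSet.{u}} {m n : SimplexCategory} (f : m ⟶ n) (s : B.obj (op n)) :
    SSet.stdSimplex.map f ≫ SSet.yonedaEquiv.symm s = SSet.yonedaEquiv.symm (B.map f.op s) := by
  ext k α
  show B.map (SSet.stdSimplex.objEquiv ((SSet.stdSimplex.map f).app k α)).op s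
    = B.map (SSet.stdSimplex.objEquiv α).op (B.map f.op s)
  rw [← Functor.map_comp_apply]
  rfl

/-- The vertex `0` of a simplex. -/
def vtx {B : SSet.{u}} {n : SimplexCategoryᵒᵖ} (s : B.obj n) : Δ[0] ⟶ B :=
  SSet.stdSimplex.map (SimplexCategory.const ⦋0⦌ n.unop 0) ≫ SSet.yonedaEquiv.symm s

/-- A predicate on vertices constant along edges. -/
def LocConst {B : SSet.{u}} (Q : (Δ[0] ⟶ B) → Prop) : Prop :=
  ∀ e : Δ[1] ⟶ B, Q (SSet.stdSimplex.δ (1 : Fin 2) ≫ e) ↔ Q (SSet.stdSimplex.δ (0 : Fin 2) ≫ e)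

lemma LocConst.vertex {B : SSet.{u}} {Q : (Δ[0] ⟶ B) → Prop} (hQ : LocConst Q)
    {n : ℕ} (s : Δ[n] ⟶ B) (i j : Fin (n + 1)) (h : i ≤ j) :
    Q (SSet.stdSimplex.map (SimplexCategory.const ⦋0⦌ ⦋n⦌ i) ≫ s)
      ↔ Q (SSet.stdSimplex.map (SimplexCategory.const ⦋0⦌ ⦋n⦌ j) ≫ s) := by
  have h1 := hQ (SSet.stdSimplex.map (SimplexCategory.mkOfLe i j h) ≫ s)
  rw [← Category.assoc, ← Category.assoc] at h1
  have e1 : SSet.stdSimplex.{u}.δ (1 : Fin 2) ≫ SSet.stdSimplex.map (SimplexCategory.mkOfLe i j h)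
      = SSet.stdSimplex.map (SimplexCategory.const ⦋0⦌ ⦋n⦌ i) := by
    refine (SSet.stdSimplex.map_comp _ _).symm.trans ?_
    congr 1
    exact SimplexCategory.Hom.ext_zero_left _ _ rfl
  have e0 : SSet.stdSimplex.{u}.δ (0 : Fin 2) ≫ SSet.stdSimplex.map (SimplexCategory.mkOfLe i j h)
      = SSet.stdSimplex.map (SimplexCategory.const ⦋0⦌ ⦋n⦌ j) := by
    refine (SSet.stdSimplex.map_comp _ _).symm.trans ?_
    congr 1
    exact SimplexCategory.Hom.ext_zero_left _ _ rfl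
  rw [e1, e0] at h1
  exact h1

lemma LocConst.map {B : SSet.{u}} {Q : (Δ[0] ⟶ B) → Prop} (hQ : LocConst Q)
    {m n : SimplexCategoryᵒᵖ} (f : m ⟶ n) (s : B.obj m) :
    Q (vtx (B.map f s)) ↔ Q (vtx s) := by
  have h1 := hQ.vertex (n := m.unop.len) (SSet.yonedaEquiv.symm s) 0
    (f.unop.toOrderHom 0) (Fin.zero_le _)
  have h2 : vtx (B.map f s) = SSet.stdSimplex.map (SimplexCategory.const ⦋0⦌ m.unop
      (f.unop.toOrderHom 0)) ≫ SSet.yonedaEquiv.symm s := by
    have h3 := map_comp_yoneda f.unop s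
    unfold vtx
    refine (congrArg (fun t => _ ≫ t) h3.symm).trans ?_
    rw [← Category.assoc]
    congr 1
  rw [h2]
  exact h1.symm

/-- The simplices at whose vertices a locally constant predicate holds. -/
def part {B : SSet.{u}} (Q : (Δ[0] ⟶ B) → Prop) (hQ : LocConst Q) : B.Subcomplex where
  obj _ := {s | Q (vtx s)}
  map f s hs := (hQ.map f s).2 hs

lemma LocConst.not {B : SSet.{u}} {Q : (Δ[0] ⟶ B) → Prop} (hQ : LocConst Q) :
    LocConst (fun b => ¬ Q b) := fun e => not_congr (hQ e)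

open Classical in
/-- Gluing. -/
noncomputable def glue {B Z : SSet.{u}} {Q : (Δ[0] ⟶ B) → Prop} (hQ : LocConst Q)
    (f : (part Q hQ : SSet.{u}) ⟶ Z) (g : (part _ hQ.not : SSet.{u}) ⟶ Z) : B ⟶ Z where
  app n := ↾fun s => if h : Q (vtx s) then f.app n ⟨s, h⟩ else g.app n ⟨s, h⟩
  naturality m n k := by
    ext s
    by_cases h : Q (vtx s)
    · have h' : Q (vtx (B.map k s)) := (hQ.map k s).2 h
      have := ConcreteCategory.congr_hom (f.naturality k) ⟨s, h⟩
      simp [h, h']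
      exact this
    · have h' : ¬ Q (vtx (B.map k s)) := fun h'' => h ((hQ.map k s).1 h'')
      have := ConcreteCategory.congr_hom (g.naturality k) ⟨s, h⟩
      simp [h, h']
      exact this

lemma glue_comp {B Z : SSet.{u}} {Q : (Δ[0] ⟶ B) → Prop} (hQ : LocConst Q)
    (f : (part Q hQ : SSet.{u}) ⟶ Z) (g : (part _ hQ.not : SSet.{u}) ⟶ Z) (p : Z ⟶ B)
    (hf : f ≫ p = (part Q hQ).ι) (hg : g ≫ p = (part _ hQ.not).ι) : glue hQ f g ≫ p = 𝟙 B := by
  ext n s
  by_cases h : Q (vtx s)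
  · have := ConcreteCategory.congr_hom (congrArg (fun t => t.app n) hf) ⟨s, h⟩
    simp [glue, h]
    exact this
  · have := ConcreteCategory.congr_hom (congrArg (fun t => t.app n) hg) ⟨s, h⟩
    simp [glue, h]
    exact this

lemma part_vertex {B : SSet.{u}} {Q : (Δ[0] ⟶ B) → Prop} (hQ : LocConst Q)
    (w : Δ[0] ⟶ (part Q hQ : SSet.{u})) : Q (w ≫ (part Q hQ).ι) := by
  have h1 : Q (vtx (SSet.yonedaEquiv (w ≫ (part Q hQ).ι))) := (SSet.yonedaEquiv w).2
  have h2 : vtx (SSet.yonedaEquiv (w ≫ (part Q hQ).ι)) = w ≫ (part Q hQ).ι := by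
    unfold vtx
    rw [Equiv.symm_apply_apply]
    exact (congrArg (fun t => t ≫ w ≫ (part Q hQ).ι) (SSet.stdSimplex.ext₀ (g := 𝟙 _))).trans
      (Category.id_comp _)
  rw [h2] at h1
  exact h1

/-- A nonempty simplicial set has a vertex. -/
lemma exists_vertex {X : SSet.{u}} (h : X.Nonempty) : Nonempty (Δ[0] ⟶ X) :=
  ⟨SSet.const h.some⟩

lemma nonempty_of_vertex {X : SSet.{u}} (w : Δ[0] ⟶ X) : X.Nonempty :=
  SSet.nonempty_of_hom w

/-- The initial simplicial set has no vertex. -/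
lemma not_vertex_initial (w : Δ[0] ⟶ (⊥_ SSet.{u})) : False := by
  let E : SSet.{u} := (Functor.const _).obj PEmpty
  exact ((SSet.yonedaEquiv (w ≫ initial.to E) : PEmpty)).elim

/-- A map over `B` out of an object without vertices. -/
noncomputable def homOfEmpty {B : SSet.{u}} {X : Over B} (h : (Δ[0] ⟶ X.left) → False)
    (Z : Over B) : X ⟶ Z :=
  have hX : IsInitial X.left := SSet.isInitialOfNotNonempty fun hne =>
    (exists_vertex hne).elim h
  Over.homMk (hX.to Z.left) (hX.hom_ext _ _)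

end Pool.Agent.W_MP_57cfa6_lc
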