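import Pool.Agent.W_MP_57cfa6_lc.Syn
import Pool.Agent.W_MP_57cfa6_lc.Adjoint

/-!
# The homotopical interpretation

The interpretation of a formula in context is an object of the slice category of simplicial sets
over the product of the Kan complexes interpreting the sorts of the context.
-/

set_option autoImplicit false

open CategoryTheory Limits

universe u

namespace Pool.Agent.W_MP_57cfa6_lc

variable {σ : Signature}

/-- A structure in Kan complexes. -/
structure KanStructure (σ : Signature) where
  /-- the simplicial set interpreting a sort -/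
  obj : σ.Srt → SSet.{u}
  /-- it is a Kan complex -/
  kan : ∀ s, SSet.KanComplex (obj s)
  /-- the simplicial map interpreting a function symbol -/
  map : ∀ f : σ.Fn, (∏ᶜ fun i : Fin (σ.dom f).length => obj ((σ.dom f).get i)) ⟶ obj (σ.cod f)

namespace KanStructure

variable (M : KanStructure.{u} σ)

/-- The interpretation of a context: the product of the interpretations of its sorts. -/
noncomputable def ctx (M : KanStructure.{u} σ) : List σ.Srt → SSet.{u}
  | [] => ⊤_ SSet.{u}
  | s :: Γ => M.ctx Γ ⨯ M.obj s

/-- The projection forgetting the variable declared last. -/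
noncomputable def proj (M : KanStructure.{u} σ) (Γ : List σ.Srt) (s : σ.Srt) :
    M.ctx (s :: Γ) ⟶ M.ctx Γ := prod.fst

/-- The interpretation of a variable: a projection. -/
noncomputable def vr (M : KanStructure.{u} σ) :
    ∀ {Γ : List σ.Srt} {s : σ.Srt}, Var Γ s → (M.ctx Γ ⟶ M.obj s)
  | _, _, .zero => prod.snd
  | _, _, .succ x => prod.fst ≫ M.vr x

/-- The interpretation of a term. -/
noncomputable def tm (M : KanStructure.{u} σ) {Γ : List σ.Srt} :
    ∀ {s : σ.Srt}, Term Γ s → (M.ctx Γ ⟶ M.obj s)
  | _, .var x => M.vr x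
  | _, .app f a => Pi.lift (fun i => M.tm (a i)) ≫ M.map f

end KanStructure

open Simplicial in
/-- The path space `Hom(Δ[1], X)`. -/
noncomputable def pathSpace (X : SSet.{u}) : SSet.{u} := (ihom Δ[1]).obj X

open Simplicial in
/-- Evaluation of paths at the vertex `k` of `Δ[1]`. -/
noncomputable def evalAt (X : SSet.{u}) (k : Fin 2) : pathSpace X ⟶ X :=
  CartesianMonoidalCategory.lift (SSet.const (SSet.stdSimplex.obj₀Equiv.symm k)) (𝟙 (pathSpace X))
    ≫ (ihom.ev Δ[1]).app X

/-- The path space as an object over `X ⨯ X`, by the two endpoints. -/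
noncomputable def pathObj (X : SSet.{u}) : Over (X ⨯ X) :=
  Over.mk (prod.lift (evalAt X 0) (evalAt X 1))

/-- The homotopical interpretation of a formula in context. -/
noncomputable def KanStructure.interp (M : KanStructure.{u} σ) :
    ∀ {Γ : List σ.Srt}, Formula Γ → Over (M.ctx Γ)
  | Γ, .top => Over.mk (𝟙 (M.ctx Γ))
  | Γ, .bot => Over.mk (initial.to (M.ctx Γ))
  | _, .eq a b => (Over.pullback (prod.lift (M.tm a) (M.tm b))).obj (pathObj _)
  | _, .and φ ψ => M.interp φ ⨯ M.interp ψ
  | _, .or φ ψ => M.interp φ ⨿ M.interp ψ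
  | _, .imp φ ψ => (prod.functor.obj (M.interp φ)).rightAdjoint.obj (M.interp ψ)
  | Γ, .all s φ => (Over.pullback (M.proj Γ s)).rightAdjoint.obj (M.interp φ)
  | Γ, .ex s φ => (Over.map (M.proj Γ s)).obj (M.interp φ)

/-- Truth of a sentence: its interpretation is a nonempty simplicial set. -/
def KanStructure.Holds (M : KanStructure.{u} σ) (φ : Formula (σ := σ) []) : Prop :=
  (M.interp φ).left.Nonempty

end Pool.Agent.W_MP_57cfa6_lc
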