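import Pool.Agent.W_MP_57cfa6_lc.KanSem

/-!
# Vertices and paths in Kan complexes
-/

set_option autoImplicit false

open CategoryTheory Limits MonoidalCategory Simplicial

universe u

namespace Pool.Agent.W_MP_57cfa6_lc

/-- Two vertices joined by an edge. -/
def Linked {X : SSet.{u}} (a b : Δ[0] ⟶ X) : Prop :=
  ∃ e : Δ[1] ⟶ X, SSet.stdSimplex.δ (1 : Fin 2) ≫ e = a ∧ SSet.stdSimplex.δ (0 : Fin 2) ≫ e = b

lemma Linked.refl {X : SSet.{u}} (a : Δ[0] ⟶ X) : Linked a a :=
  ⟨SSet.stdSimplex.σ 0 ≫ a, by rw [← Category.assoc]; exact (congrArg (· ≫ a)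
    (SSet.stdSimplex.ext₀ (g := 𝟙 _))).trans (Category.id_comp a),
    by rw [← Category.assoc]; exact (congrArg (· ≫ a)
    (SSet.stdSimplex.ext₀ (g := 𝟙 _))).trans (Category.id_comp a)⟩

lemma Linked.comp {X Y : SSet.{u}} {a b : Δ[0] ⟶ X} (h : Linked a b) (f : X ⟶ Y) :
    Linked (a ≫ f) (b ≫ f) := by
  obtain ⟨e, rfl, rfl⟩ := h
  exact ⟨e ≫ f, (Category.assoc _ _ _).symm, (Category.assoc _ _ _).symm⟩

lemma Linked.euclid {X : SSet.{u}} (hX : SSet.KanComplex X) {a b c : Δ[0] ⟶ X}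
    (h : Linked a b) (h' : Linked a c) : Linked b c := by
  obtain ⟨e, he1, he0⟩ := h
  obtain ⟨e', he1', he0'⟩ := h'
  let f : ∀ (j : Fin 3) (_ : j ≠ 0), (Δ[1] : SSet.{u}) ⟶ X := fun j _ => if j = 1 then e' else e
  have hf : SSet.horn.IsCompatible f := by
    rw [SSet.horn.isCompatible_iff]
    intro j k hj hk hjk
    have key : ∀ j k : Fin 3, j ≠ 0 → k ≠ 0 → j < k → j = 1 ∧ k = 2 := by decide
    obtain ⟨rfl, rfl⟩ := key j k hj hk hjk
    exact he1'.trans he1.symm
  obtain ⟨φ, hφ⟩ := hf.exists_lift_of_kanComplex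
  have h1 : SSet.stdSimplex.δ (1 : Fin 3) ≫ φ = e' := hφ 1 (by decide)
  have h2 : SSet.stdSimplex.δ (2 : Fin 3) ≫ φ = e := hφ 2 (by decide)
  refine ⟨SSet.stdSimplex.δ (0 : Fin 3) ≫ φ, ?_, ?_⟩
  · rw [← he0, ← h2, ← Category.assoc, ← Category.assoc]
    congr 1
    exact (CosimplicialObject.δ_comp_δ SSet.stdSimplex (show (0 : Fin 2) ≤ 1 by decide)).symm
  · rw [← he0', ← h1, ← Category.assoc, ← Category.assoc]
    congr 1

lemma Linked.symm {X : SSet.{u}} (hX : SSet.KanComplex X) {a b : Δ[0] ⟶ X}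
    (h : Linked a b) : Linked b a := h.euclid hX (Linked.refl a)

lemma Linked.trans {X : SSet.{u}} (hX : SSet.KanComplex X) {a b c : Δ[0] ⟶ X}
    (h : Linked a b) (h' : Linked b c) : Linked a c := (h.symm hX).euclid hX h'

/-- The relation being joined by an edge is compatible with edges. -/
lemma Linked.congr {X : SSet.{u}} (hX : SSet.KanComplex X) {a b a' b' : Δ[0] ⟶ X}
    (h : Linked a a') (h' : Linked b b') : Linked a b ↔ Linked a' b' :=
  ⟨fun k => ((h.symm hX).trans hX k).trans hX h', fun k => (h.trans hX k).trans hX (h'.symm hX)⟩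

/-! ### Vertices of the path space -/

lemma gen_comp_ev {I T X : SSet.{u}} (c : (ihom I).obj X ⟶ I) (p : T ⟶ (ihom I).obj X) :
    p ≫ CartesianMonoidalCategory.lift c (𝟙 _) ≫ (ihom.ev I).app X
      = CartesianMonoidalCategory.lift (p ≫ c) (𝟙 T) ≫ MonoidalClosed.uncurry p := by
  rw [MonoidalClosed.uncurry_eq, ← Category.assoc, ← Category.assoc]
  congr 1

lemma comp_evalAt {X : SSet.{u}} (k : Fin 2) (p : Δ[0] ⟶ pathSpace X) :
    p ≫ evalAt X k = CartesianMonoidalCategory.lift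
      (SSet.const (SSet.stdSimplex.obj₀Equiv.symm k)) (𝟙 (Δ[0] : SSet.{u})) ≫
        MonoidalClosed.uncurry p :=
  gen_comp_ev _ _

/-- A vertex of the path space is an edge. -/
lemma exists_path_iff {X : SSet.{u}} (a b : Δ[0] ⟶ X) :
    (∃ p : Δ[0] ⟶ pathSpace X, p ≫ evalAt X 0 = a ∧ p ≫ evalAt X 1 = b) ↔ Linked a b := by
  constructor
  · rintro ⟨p, rfl, rfl⟩
    refine ⟨CartesianMonoidalCategory.lift (𝟙 (Δ[1] : SSet.{u})) (SSet.stdSimplex.σ 0)
      ≫ MonoidalClosed.uncurry p, ?_, ?_⟩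
    · rw [comp_evalAt, ← Category.assoc, CartesianMonoidalCategory.comp_lift]
      congr 1
      rw [Category.comp_id]
      apply CartesianMonoidalCategory.hom_ext
      · rw [CartesianMonoidalCategory.lift_fst, CartesianMonoidalCategory.lift_fst]
        exact SSet.stdSimplex.δ_one_eq_const
      · exact SSet.stdSimplex.ext₀
    · rw [comp_evalAt, ← Category.assoc, CartesianMonoidalCategory.comp_lift]
      congr 1
      rw [Category.comp_id]
      apply CartesianMonoidalCategory.hom_ext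
      · rw [CartesianMonoidalCategory.lift_fst, CartesianMonoidalCategory.lift_fst]
        exact SSet.stdSimplex.δ_zero_eq_const
      · exact SSet.stdSimplex.ext₀
  · rintro ⟨e, rfl, rfl⟩
    refine ⟨MonoidalClosed.curry (CartesianMonoidalCategory.fst (Δ[1] : SSet.{u}) Δ[0] ≫ e),
      ?_, ?_⟩
    · refine (comp_evalAt 0 _).trans ?_
      rw [MonoidalClosed.uncurry_curry, ← Category.assoc, CartesianMonoidalCategory.lift_fst]
      congr 1
      exact SSet.stdSimplex.δ_one_eq_const.symm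
    · refine (comp_evalAt 1 _).trans ?_
      rw [MonoidalClosed.uncurry_curry, ← Category.assoc, CartesianMonoidalCategory.lift_fst]
      congr 1
      exact SSet.stdSimplex.δ_zero_eq_const.symm

lemma gen_hom_iff {T P X B : SSet.{u}} (e0 e1 : P ⟶ X) (x y : B ⟶ X) (b : T ⟶ B) :
    Nonempty (Over.mk b ⟶ (Over.pullback (prod.lift x y)).obj (Over.mk (prod.lift e0 e1)))
      ↔ ∃ p : T ⟶ P, p ≫ e0 = b ≫ x ∧ p ≫ e1 = b ≫ y := by
  constructor
  · rintro ⟨f⟩
    have hw : f.left ≫ pullback.snd (prod.lift e0 e1) (prod.lift x y) = b := Over.w f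
    have hc : (f.left ≫ pullback.fst (prod.lift e0 e1) (prod.lift x y)) ≫ prod.lift e0 e1
        = b ≫ prod.lift x y := by
      rw [Category.assoc, pullback.condition, ← Category.assoc, hw]
    refine ⟨f.left ≫ pullback.fst (prod.lift e0 e1) (prod.lift x y), ?_, ?_⟩
    · have h1 := congrArg (fun t => t ≫ prod.fst) hc
      simp only [Category.assoc, prod.lift_fst] at h1
      exact (Category.assoc _ _ _).trans h1
    · have h1 := congrArg (fun t => t ≫ prod.snd) hc
      simp only [Category.assoc, prod.lift_snd] at h1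
      exact (Category.assoc _ _ _).trans h1
  · rintro ⟨p, h0, h1⟩
    have hp : p ≫ prod.lift e0 e1 = b ≫ prod.lift x y := by
      apply Limits.prod.hom_ext
      · rw [Category.assoc, prod.lift_fst, h0, Category.assoc, prod.lift_fst]
      · rw [Category.assoc, prod.lift_snd, h1, Category.assoc, prod.lift_snd]
    exact ⟨Over.homMk (pullback.lift p b hp) (pullback.lift_snd _ _ _)⟩

/-- Vertices of the interpretation of an equation. -/
lemma exists_hom_pathObj_iff {X B : SSet.{u}} (x y : B ⟶ X) (b : Δ[0] ⟶ B) :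
    Nonempty (Over.mk b ⟶ (Over.pullback (prod.lift x y)).obj (pathObj X))
      ↔ Linked (b ≫ x) (b ≫ y) := by
  rw [← exists_path_iff]
  exact gen_hom_iff (evalAt X 0) (evalAt X 1) x y b

end Pool.Agent.W_MP_57cfa6_lc
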