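import Mathlib

/-!
# Many-sorted intuitionistic first-order logic with equality, in context

Contexts are lists of sorts, the variable declared last being the head of the list; variables are
typed de Bruijn indices. Sorts may be empty: nothing in the calculus makes a variable of a sort
available that the context does not declare.
-/

set_option autoImplicit false

namespace Pool.Agent.W_MP_57cfa6_lc

/-- A many-sorted algebraic signature: sorts, and function symbols `f : A₁ ⋯ Aₙ → B`. -/
structure Signature where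
  /-- the sorts -/
  Srt : Type
  /-- the function symbols -/
  Fn : Type
  /-- the sorts of the arguments -/
  dom : Fn → List Srt
  /-- the sort of the value -/
  cod : Fn → Srt

variable {σ : Signature}

/-- The variables of sort `s` in the context `Γ`. -/
inductive Var : List σ.Srt → σ.Srt → Type
  /-- the variable declared last -/
  | zero {Γ : List σ.Srt} {s : σ.Srt} : Var (s :: Γ) s
  /-- a variable declared before -/
  | succ {Γ : List σ.Srt} {s t : σ.Srt} : Var Γ s → Var (t :: Γ) s

/-- The terms of a given sort in the context `Γ`. -/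
inductive Term (Γ : List σ.Srt) : σ.Srt → Type
  /-- a variable -/
  | var {s : σ.Srt} : Var Γ s → Term Γ s
  /-- a function symbol applied to terms -/
  | app (f : σ.Fn) : (∀ i : Fin (σ.dom f).length, Term Γ ((σ.dom f).get i)) → Term Γ (σ.cod f)

/-- The formulas in a context. -/
inductive Formula : List σ.Srt → Type
  /-- truth -/
  | top {Γ : List σ.Srt} : Formula Γ
  /-- falsity -/
  | bot {Γ : List σ.Srt} : Formula Γ
  /-- an equation between two terms of the same sort -/
  | eq {Γ : List σ.Srt} {s : σ.Srt} : Term Γ s → Term Γ s → Formula Γ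
  /-- conjunction -/
  | and {Γ : List σ.Srt} : Formula Γ → Formula Γ → Formula Γ
  /-- disjunction -/
  | or {Γ : List σ.Srt} : Formula Γ → Formula Γ → Formula Γ
  /-- implication -/
  | imp {Γ : List σ.Srt} : Formula Γ → Formula Γ → Formula Γ
  /-- universal quantification over the variable declared last -/
  | all {Γ : List σ.Srt} (s : σ.Srt) : Formula (s :: Γ) → Formula Γ
  /-- existential quantification over the variable declared last -/
  | ex {Γ : List σ.Srt} (s : σ.Srt) : Formula (s :: Γ) → Formula Γ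

/-- Negation. -/
def Formula.neg {Γ : List σ.Srt} (φ : Formula Γ) : Formula Γ := .imp φ .bot

/-- The action of a map of variables on the variables of extended contexts. -/
def liftRen {Γ Δ : List σ.Srt} (r : ∀ s, Var Γ s → Var Δ s) (t : σ.Srt) :
    ∀ s, Var (t :: Γ) s → Var (t :: Δ) s
  | _, .zero => .zero
  | _, .succ x => .succ (r _ x)

/-- Renaming of variables in a term. -/
def Term.rename {Γ Δ : List σ.Srt} (r : ∀ s, Var Γ s → Var Δ s) :
    ∀ {s : σ.Srt}, Term Γ s → Term Δ s
  | _, .var x => .var (r _ x)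
  | _, .app f a => .app f fun i => (a i).rename r

/-- The action of a substitution on the variables of extended contexts. -/
def liftSub {Γ Δ : List σ.Srt} (τ : ∀ s, Var Γ s → Term Δ s) (t : σ.Srt) :
    ∀ s, Var (t :: Γ) s → Term (t :: Δ) s
  | _, .zero => .var .zero
  | _, .succ x => (τ _ x).rename fun _ => .succ

/-- Substitution in a term. -/
def Term.subst {Γ Δ : List σ.Srt} (τ : ∀ s, Var Γ s → Term Δ s) :
    ∀ {s : σ.Srt}, Term Γ s → Term Δ s
  | _, .var x => τ _ x
  | _, .app f a => .app f fun i => (a i).subst τ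

/-- Renaming of the free variables of a formula. -/
def Formula.rename : ∀ {Γ Δ : List σ.Srt}, (∀ s, Var Γ s → Var Δ s) → Formula Γ → Formula Δ
  | _, _, _, .top => .top
  | _, _, _, .bot => .bot
  | _, _, r, .eq a b => .eq (a.rename r) (b.rename r)
  | _, _, r, .and φ ψ => .and (φ.rename r) (ψ.rename r)
  | _, _, r, .or φ ψ => .or (φ.rename r) (ψ.rename r)
  | _, _, r, .imp φ ψ => .imp (φ.rename r) (ψ.rename r)
  | _, _, r, .all s φ => .all s (φ.rename (liftRen r s))
  | _, _, r, .ex s φ => .ex s (φ.rename (liftRen r s))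

/-- Substitution of terms for the free variables of a formula. -/
def Formula.subst : ∀ {Γ Δ : List σ.Srt}, (∀ s, Var Γ s → Term Δ s) → Formula Γ → Formula Δ
  | _, _, _, .top => .top
  | _, _, _, .bot => .bot
  | _, _, τ, .eq a b => .eq (a.subst τ) (b.subst τ)
  | _, _, τ, .and φ ψ => .and (φ.subst τ) (ψ.subst τ)
  | _, _, τ, .or φ ψ => .or (φ.subst τ) (ψ.subst τ)
  | _, _, τ, .imp φ ψ => .imp (φ.subst τ) (ψ.subst τ)
  | _, _, τ, .all s φ => .all s (φ.subst (liftSub τ s))
  | _, _, τ, .ex s φ => .ex s (φ.subst (liftSub τ s))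

/-- A formula regarded as a formula in the context extended by one variable. -/
def Formula.weaken {Γ : List σ.Srt} (s : σ.Srt) (φ : Formula Γ) : Formula (s :: Γ) :=
  φ.rename fun _ => .succ

/-- The substitution of `t` for the variable declared last. -/
def single {Γ : List σ.Srt} {s : σ.Srt} (t : Term Γ s) : ∀ s', Var (s :: Γ) s' → Term Γ s'
  | _, .zero => t
  | _, .succ x => .var x

/-- The result of substituting `t` for the variable declared last in `φ`. -/
def Formula.inst {Γ : List σ.Srt} {s : σ.Srt} (φ : Formula (s :: Γ)) (t : Term Γ s) : Formula Γ :=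
  φ.subst (single t)

/-- Natural deduction for intuitionistic first-order logic with equality: `Proves Δ φ` means that
`φ` is derivable, in its context, from the set `Δ` of hypotheses. -/
inductive Proves : ∀ {Γ : List σ.Srt}, Set (Formula Γ) → Formula Γ → Prop
  | hyp {Γ : List σ.Srt} {Δ : Set (Formula Γ)} {φ : Formula Γ} : φ ∈ Δ → Proves Δ φ
  | topI {Γ : List σ.Srt} {Δ : Set (Formula Γ)} : Proves Δ .top
  | botE {Γ : List σ.Srt} {Δ : Set (Formula Γ)} {φ : Formula Γ} : Proves Δ .bot → Proves Δ φ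
  | andI {Γ : List σ.Srt} {Δ : Set (Formula Γ)} {φ ψ : Formula Γ} :
      Proves Δ φ → Proves Δ ψ → Proves Δ (.and φ ψ)
  | andE₁ {Γ : List σ.Srt} {Δ : Set (Formula Γ)} {φ ψ : Formula Γ} :
      Proves Δ (.and φ ψ) → Proves Δ φ
  | andE₂ {Γ : List σ.Srt} {Δ : Set (Formula Γ)} {φ ψ : Formula Γ} :
      Proves Δ (.and φ ψ) → Proves Δ ψ
  | orI₁ {Γ : List σ.Srt} {Δ : Set (Formula Γ)} {φ ψ : Formula Γ} :
      Proves Δ φ → Proves Δ (.or φ ψ)
  | orI₂ {Γ : List σ.Srt} {Δ : Set (Formula Γ)} {φ ψ : Formula Γ} :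
      Proves Δ ψ → Proves Δ (.or φ ψ)
  | orE {Γ : List σ.Srt} {Δ : Set (Formula Γ)} {φ ψ χ : Formula Γ} :
      Proves Δ (.or φ ψ) → Proves (insert φ Δ) χ → Proves (insert ψ Δ) χ → Proves Δ χ
  | impI {Γ : List σ.Srt} {Δ : Set (Formula Γ)} {φ ψ : Formula Γ} :
      Proves (insert φ Δ) ψ → Proves Δ (.imp φ ψ)
  | impE {Γ : List σ.Srt} {Δ : Set (Formula Γ)} {φ ψ : Formula Γ} :
      Proves Δ (.imp φ ψ) → Proves Δ φ → Proves Δ ψ
  | allI {Γ : List σ.Srt} {Δ : Set (Formula Γ)} {s : σ.Srt} {φ : Formula (s :: Γ)} :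
      Proves (Formula.weaken s '' Δ) φ → Proves Δ (.all s φ)
  | allE {Γ : List σ.Srt} {Δ : Set (Formula Γ)} {s : σ.Srt} {φ : Formula (s :: Γ)}
      (t : Term Γ s) : Proves Δ (.all s φ) → Proves Δ (φ.inst t)
  | exI {Γ : List σ.Srt} {Δ : Set (Formula Γ)} {s : σ.Srt} {φ : Formula (s :: Γ)}
      (t : Term Γ s) : Proves Δ (φ.inst t) → Proves Δ (.ex s φ)
  | exE {Γ : List σ.Srt} {Δ : Set (Formula Γ)} {s : σ.Srt} {φ : Formula (s :: Γ)}
      {χ : Formula Γ} : Proves Δ (.ex s φ) →
      Proves (insert φ (Formula.weaken s '' Δ)) (χ.weaken s) → Proves Δ χ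
  | eqI {Γ : List σ.Srt} {Δ : Set (Formula Γ)} {s : σ.Srt} (t : Term Γ s) : Proves Δ (.eq t t)
  | eqE {Γ : List σ.Srt} {Δ : Set (Formula Γ)} {s : σ.Srt} {t t' : Term Γ s}
      (φ : Formula (s :: Γ)) : Proves Δ (.eq t t') → Proves Δ (φ.inst t) → Proves Δ (φ.inst t')

/-- The instances of excluded middle for sentences. -/
def closedEM (σ : Signature) : Set (Formula (σ := σ) []) := {χ | ∃ ψ, χ = .or ψ ψ.neg}

end Pool.Agent.W_MP_57cfa6_lc
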