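import Pool.Agent.W_MP_57cfa6_lc.Glue
import Pool.Agent.W_MP_57cfa6_lc.Counter

/-!
# The sentence holds in every structure in Kan complexes
-/

set_option autoImplicit false

open CategoryTheory Limits MonoidalCategory Simplicial

universe u

namespace Pool.Agent.W_MP_57cfa6_lc

section Slice

variable {B : SSet.{u}}

/-- The exponential in a slice. -/
noncomputable abbrev expo (A C : Over B) : Over B := (prod.functor.obj A).rightAdjoint.obj C

/-- Transposition of a map out of a product. -/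
noncomputable def transpose {A C Z : Over B} (f : A ⨯ C ⟶ Z) : C ⟶ expo A Z :=
  (Adjunction.ofIsLeftAdjoint (prod.functor.obj A)).homEquiv C Z f

/-- Evaluation. -/
noncomputable def evaluate (A Z : Over B) : A ⨯ expo A Z ⟶ Z :=
  (Adjunction.ofIsLeftAdjoint (prod.functor.obj A)).counit.app Z

/-- Global sections of a universal quantification. -/
noncomputable def allIntro {X Y : SSet.{u}} (p : X ⟶ Y) {Z : Over X}
    (f : Over.mk (𝟙 X) ⟶ Z) : Over.mk (𝟙 Y) ⟶ (Over.pullback p).rightAdjoint.obj Z :=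
  (Adjunction.ofIsLeftAdjoint (Over.pullback p)).homEquiv (Over.mk (𝟙 Y)) Z
    (Over.mkIdTerminal.from _ ≫ f)

/-- If a locally constant predicate on the base is the existence of a vertex of `E` over a vertex,
then `¬ E ∨ ¬ ¬ E` has a global section. -/
lemma exists_section (E : Over B) (Q : (Δ[0] ⟶ B) → Prop) (hQ : LocConst Q)
    (hE : ∀ b : Δ[0] ⟶ B, Nonempty (Over.mk b ⟶ E) ↔ Q b) (Z : Over B)
    (hZ : (Δ[0] ⟶ Z.left) → False) :
    Nonempty (Over.mk (𝟙 B) ⟶ expo E Z ⨿ expo (expo E Z) Z) := by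
  -- over the part where the predicate fails
  have f : Over.mk (part _ hQ.not).ι ⟶ expo E Z := transpose (homOfEmpty (fun w => by
    have h1 : Q (w ≫ (E ⨯ Over.mk (part _ hQ.not).ι).hom) :=
      (hE _).1 ⟨Over.homMk w rfl ≫ prod.fst⟩
    have h2 := part_vertex hQ.not (w ≫ (prod.snd : E ⨯ Over.mk (part _ hQ.not).ι ⟶ _).left)
    apply h2
    have h3 : (w ≫ (prod.snd : E ⨯ Over.mk (part _ hQ.not).ι ⟶ _).left) ≫ (part _ hQ.not).ι
        = w ≫ (E ⨯ Over.mk (part _ hQ.not).ι).hom := by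
      rw [Category.assoc]
      congr 1
      exact Over.w (prod.snd : E ⨯ Over.mk (part _ hQ.not).ι ⟶ _)
    rw [h3]
    exact h1) Z)
  -- over the part where the predicate holds
  have g : Over.mk (part _ hQ).ι ⟶ expo (expo E Z) Z := transpose (homOfEmpty (fun w => by
    have h2 := part_vertex hQ (w ≫ (prod.snd : expo E Z ⨯ Over.mk (part _ hQ).ι ⟶ _).left)
    have h3 : (w ≫ (prod.snd : expo E Z ⨯ Over.mk (part _ hQ).ι ⟶ _).left) ≫ (part _ hQ).ι
        = w ≫ (expo E Z ⨯ Over.mk (part _ hQ).ι).hom := by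
      rw [Category.assoc]
      congr 1
      exact Over.w (prod.snd : expo E Z ⨯ Over.mk (part _ hQ).ι ⟶ _)
    rw [h3] at h2
    obtain ⟨e⟩ := (hE _).2 h2
    have n : Over.mk (w ≫ (expo E Z ⨯ Over.mk (part _ hQ).ι).hom) ⟶ expo E Z :=
      Over.homMk w rfl ≫ prod.fst
    exact hZ (prod.lift e n ≫ evaluate E Z).left) Z)
  refine ⟨Over.homMk (glue hQ (g ≫ coprod.inr).left (f ≫ coprod.inl).left) ?_⟩
  exact glue_comp hQ _ _ _ (Over.w (g ≫ coprod.inr)) (Over.w (f ≫ coprod.inl))

end Slice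

/-- The sentence holds in every structure. -/
theorem holds_wem (M : KanStructure.{u} oneSort) : M.Holds wem := by
  have hA : SSet.KanComplex (M.obj ()) := M.kan ()
  let x : M.ctx [(), ()] ⟶ M.obj () := M.tm (.var (.succ .zero))
  let y : M.ctx [(), ()] ⟶ M.obj () := M.tm (.var .zero)
  let Q : (Δ[0] ⟶ M.ctx [(), ()]) → Prop := fun b => Linked (b ≫ x) (b ≫ y)
  have hQ : LocConst Q := by
    intro e
    have h : Linked (SSet.stdSimplex.δ (1 : Fin 2) ≫ e) (SSet.stdSimplex.δ (0 : Fin 2) ≫ e) :=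
      ⟨e, rfl, rfl⟩
    exact Linked.congr hA (h.comp x) (h.comp y)
  have hE : ∀ b : Δ[0] ⟶ M.ctx [(), ()], Nonempty (Over.mk b ⟶ M.interp xEqY) ↔ Q b :=
    fun b => exists_hom_pathObj_iff x y b
  obtain ⟨s⟩ := exists_section (M.interp xEqY) Q hQ hE (M.interp .bot) not_vertex_initial
  have t := allIntro (M.proj [] ()) (allIntro (M.proj [()] ()) s)
  have v : Δ[0] ⟶ M.ctx [] := terminal.from _
  exact nonempty_of_vertex (v ≫ t.left)

end Pool.Agent.W_MP_57cfa6_lc
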